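import Pool.Agent.helper62.HF.SpecV
import Pool.Agent.helper27.MS.MS2

set_option autoImplicit false

open scoped MatrixGroups ContDiff Topology UpperHalfPlane ComplexConjugate
open UpperHalfPlane MeasureTheory Filter Set

namespace Pool.Agent.HV

open Pool.Agent.RS Pool.Agent.MS

/-! ## real analysis -/

theorem HM1_s (K C3 δ κ : ℝ) (hδ : 0 < δ) (hκ : 0 < κ) :
    ∃ s : ℝ, 0 ≤ s ∧ K * C3 * Real.exp (-s) ≤ δ / 2 ∧ Real.exp (-s) ≤ κ := by
  have h1 : Tendsto (fun s : ℝ => K * C3 * Real.exp (-s)) atTop (𝓝 (K * C3 * 0)) :=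
    (Real.tendsto_exp_neg_atTop_nhds_zero).const_mul _
  rw [mul_zero] at h1
  have h2 := (eventually_ge_atTop (0 : ℝ)).and ((h1.eventually_le_const (show (0 : ℝ) < δ / 2 by positivity)).and
    (Real.tendsto_exp_neg_atTop_nhds_zero.eventually_le_const hκ))
  obtain ⟨s, hs⟩ := h2.exists
  exact ⟨s, hs.1, hs.2.1, hs.2.2⟩

/-! ## the part on the support -/

theorem HM1_le (hFL0 : FL0_stmt) (hGFD : GFD_stmt) (hGBD : GBD_stmt)
    (Γ : Subgroup SL(2, ℝ)) (F : Set ℍ) (hΓ : QU.SurfaceGroup Γ) (hF : QU.NiceDom Γ F) (c : ℍ → ℂ) (hc : TB (1 / 4) c)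
    (r : ℝ) (φ : ℍ → ℂ) (hφ : EigL Γ (1 / 4 + r ^ 2) φ) (Ψ : SL(2, ℝ) → ℝ) (hΨ : InvG Γ Ψ) (hΨ1 : ∀ g, 0 ≤ Ψ g ∧ Ψ g ≤ 1) (t : ℝ)
    (B : Set SL(2, ℝ)) (hBm : MeasurableSet B) (hB : ∀ g, Ψ (g * aM t) ≠ 0 → g ∈ B) :
    iR F (fun g => Ψ (g * aM t) * ‖Wf (pk r c) φ g‖ ^ 2) ≤ ∫ g in dG F ∩ B, ‖Wf (pk r c) φ g‖ ^ 2 ∂mG := by
  have hPint : IntegrableOn (fun g => ‖Wf (pk r c) φ g‖ ^ 2) (dG F) mG := EF1_int hGFD hGBD hFL0 r hΓ hF hc (EF1_invC hφ)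
  rw [← setIntegral_indicator hBm]
  refine integral_mono_of_nonneg (Eventually.of_forall fun g => mul_nonneg (hΨ1 _).1 (sq_nonneg _)) (hPint.indicator hBm)
    (Eventually.of_forall fun g => ?_)
  show Ψ (g * aM t) * ‖Wf (pk r c) φ g‖ ^ 2 ≤ B.indicator (fun g => ‖Wf (pk r c) φ g‖ ^ 2) g
  by_cases hg : g ∈ B
  · rw [indicator_of_mem hg]
    exact mul_le_of_le_one_left (sq_nonneg _) (hΨ1 _).2
  · rw [indicator_of_notMem hg]
    have h1 : Ψ (g * aM t) = 0 := by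
      by_contra h
      exact hg (hB g h)
    rw [h1, zero_mul]

/-! ## the core estimate -/

theorem HM1_core (hAS4 : AS4_stmt) (hFL0 : FL0_stmt) (hGFD : GFD_stmt) (hGBD : GBD_stmt)
    (Γ : Subgroup SL(2, ℝ)) (F : Set ℍ) (hΓ : QU.SurfaceGroup Γ) (hF : QU.NiceDom Γ F) (c c' : ℍ → ℂ) (hc : TB (1 / 4) c) (hc' : TB (1 / 4) c')
    (r δ : ℝ) (φ : ℍ → ℂ) (hr : 0 < r) (hδ0 : 0 < δ) (hδ : Real.sqrt δ ≤ 1 / 160) (hφ : EigL Γ (1 / 4 + r ^ 2) φ) (hn : nn F φ = 1)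
    (hf : ∀ u : ℍ → ℂ, InvC Γ u → r * qn F c r u ≤ (1 + δ) * nn F u) (hf' : ∀ u : ℍ → ℂ, InvC Γ u → r * qn F c' r u ≤ (1 + δ) * nn F u)
    (hq : |r * qn F c r φ - 1| ≤ δ)
    (B D : Set SL(2, ℝ)) (hBm : MeasurableSet B) (hD : MeasurableSet D)
    (hBi : ∀ (γ : Γ) (g : SL(2, ℝ)), (γ : SL(2, ℝ)) * g ∈ B ↔ g ∈ B) (hDi : ∀ (γ : Γ) (g : SL(2, ℝ)), (γ : SL(2, ℝ)) * g ∈ D ↔ g ∈ D)
    (hop : ∀ w : SL(2, ℝ) → ℂ, Measurable w → (∃ m : ℝ, ∀ g, ‖w g‖ ≤ m) → (∀ (γ : Γ) g, w ((γ : SL(2, ℝ)) * g) = w g) → (∀ g, w g ≠ 0 → g ∈ D) →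
      r ^ 2 * ∫ g in dG F ∩ B, ‖Wf (pk r c) (sy Γ F (fun z => conj (pk r c' z)) w) g‖ ^ 2 ∂mG ≤ δ ^ 2 * iR F (fun g => ‖w g‖ ^ 2)) :
    r * (∫ g in dG F ∩ B, ‖Wf (pk r c) φ g‖ ^ 2 ∂mG) +
      r * ∫ h in dG F ∩ D, ‖Wf (pk r c') φ h‖ ^ 2 ∂mG ≤ 1 + 81 * Real.sqrt δ := by
  set P : SL(2, ℝ) → ℝ := fun g => ‖Wf (pk r c) φ g‖ ^ 2 with hP
  have hP0 : ∀ g, 0 ≤ P g := fun g => sq_nonneg _
  have hPint : IntegrableOn P (dG F) mG := EF1_int hGFD hGBD hFL0 r hΓ hF hc (EF1_invC hφ)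
  have hsplit : ∫ g in dG F ∩ B, P g ∂mG + ∫ g in dG F \ B, P g ∂mG = qn F c r φ :=
    integral_inter_add_sdiff hBm hPint
  have hIC : 0 ≤ ∫ g in dG F \ B, P g ∂mG := setIntegral_nonneg_of_ae (Eventually.of_forall fun g => hP0 g)
  have hIB : 0 ≤ ∫ g in dG F ∩ B, P g ∂mG := setIntegral_nonneg_of_ae (Eventually.of_forall fun g => hP0 g)
  have hqq := abs_le.1 hq
  have hs0 : 0 < Real.sqrt δ := Real.sqrt_pos.2 hδ0
  have hsq : Real.sqrt δ ^ 2 = δ := Real.sq_sqrt hδ0.le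
  have hδ1 : δ ≤ 1 / 160 ^ 2 := by
    have h2 := pow_le_pow_left₀ (Real.sqrt_nonneg δ) hδ 2
    rw [hsq] at h2
    norm_num at h2 ⊢
    exact h2
  have hsr : r * (∫ g in dG F ∩ B, P g ∂mG) + r * (∫ g in dG F \ B, P g ∂mG) = r * qn F c r φ := by
    rw [← hsplit]
    ring
  set x : ℝ := r * ∫ g in dG F ∩ B, P g ∂mG with hx
  have hx0 : 0 ≤ x := mul_nonneg hr.le hIB
  have hy0 : 0 ≤ r * ∫ g in dG F \ B, P g ∂mG := mul_nonneg hr.le hIC
  have hx1 : x ≤ 1 + δ := by linarith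
  have e2 : r * ∫ g in dG F \ B, P g ∂mG ≤ 1 + δ - x := by linarith
  have key := hAS4 Γ F c c' r r δ (δ ^ 2) φ B D hΓ hF hc hc' hr hδ0.le hφ hn hf hf' hBm hD hBi hDi (sq_nonneg _) hop
  have hII : 0 ≤ r * ∫ h in dG F ∩ D, ‖Wf (pk r c') φ h‖ ^ 2 ∂mG :=
    mul_nonneg hr.le (setIntegral_nonneg_of_ae (Eventually.of_forall fun g => sq_nonneg _))
  set Z : ℝ := r * ∫ h in dG F ∩ D, ‖Wf (pk r c') φ h‖ ^ 2 ∂mG with hZ
  set m : ℝ := min x 1 with hm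
  have hm0 : 0 ≤ m := le_min hx0 zero_le_one
  have hm1 : m ≤ 1 := min_le_right _ _
  have hmx : x - δ ≤ m := le_min (by linarith) (by linarith)
  have e4 : 1 + δ - x ≤ 1 - m + 5 * δ := by
    have h1 : m ≤ x := min_le_left _ _
    linarith
  have fin : (1 - Real.sqrt δ ^ 2) * Real.sqrt Z ≤ Real.sqrt (2 * (Real.sqrt δ ^ 2) ^ 2) +
      (1 + Real.sqrt δ ^ 2) * Real.sqrt (1 - m + 5 * Real.sqrt δ ^ 2) := by
    rw [hsq]
    refine le_trans (mul_le_mul_of_nonneg_right (by linarith : 1 - δ ≤ r * qn F c r φ) (Real.sqrt_nonneg _)) (key.trans ?_)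
    refine add_le_add (Real.sqrt_le_sqrt ?_) (mul_le_mul_of_nonneg_left (Real.sqrt_le_sqrt (e2.trans e4)) (by linarith))
    calc δ ^ 2 * x ≤ δ ^ 2 * 2 :=
          mul_le_mul_of_nonneg_left (by linarith) (sq_nonneg _)
      _ = 2 * δ ^ 2 := by ring
  have res := MS1_alg (Real.sqrt δ) m (Real.sqrt Z) hs0 hδ hm0 hm1 (Real.sqrt_nonneg _) fin
  rw [Real.sq_sqrt hII] at res
  have h9 : δ ≤ Real.sqrt δ := by
    nlinarith
  linarith

theorem HM1_proof (hSTB : STB_stmt) (hNM3 : NM3_stmt) (hEQ4 : EQ4_stmt) (hINW : INW_stmt) (hBXM : BXM_stmt)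
    (hAS4 : AS4_stmt) (hOPB : OPB_stmt) (hLCG : LCG_stmt) (hCTG : CTG_stmt) (hBWM : BWM_stmt)
    (hCV1 : CV1_stmt) (hFL0 : FL0_stmt) (hGFD : GFD_stmt) (hGBD : GBD_stmt) (hGLC : GLC_stmt) : HM1_stmt := by
  classical
  intro Γ F β α hΓ hF hβ hα
  obtain ⟨-, -, -, hst, hmono, -⟩ := hSTB
  have hα4 : BA (1 / 4) α := (hmono (1 / 8) (1 / 4) α (by norm_num)).2.1 hα
  obtain ⟨K, rI, hK, hrI, hI⟩ := hINW Γ F β α hΓ hF hβ hα4
  obtain ⟨a2, ha2, ha28, hBX⟩ := hBXM Γ hΓ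
  obtain ⟨b0, hb0, hb01, hLC⟩ := hLCG
  obtain ⟨N, hN1, hCT⟩ := hCTG Γ hΓ
  refine ⟨min a2 (min (b0 / 16) (1 / 1000)), lt_min ha2 (lt_min (by linarith) (by norm_num)), ?_⟩
  intro a ha0 haa ε hε0 hε1
  have ha2' : a ≤ a2 := haa.trans (min_le_left _ _)
  have hab0 : 16 * a ≤ b0 := by
    have h1 : a ≤ b0 / 16 := haa.trans ((min_le_right _ _).trans (min_le_left _ _))
    linarith
  have ha1000 : a ≤ 1 / 1000 := haa.trans ((min_le_right _ _).trans (min_le_right _ _))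
  obtain ⟨C3', hC3', hBX'⟩ := hBX a ha0 ha2'
  set C3 : ℝ := max C3' 1 with hC3d
  have hC3 : 1 ≤ C3 := le_max_right _ _
  have hC3le : C3' ≤ C3 := le_max_left _ _
  have hK0 : 0 < K := by linarith
  have hC30 : 0 < C3 := by linarith
  obtain ⟨C4, hC4, hLC'⟩ := hLC (16 * a) (by linarith) hab0
  set δ : ℝ := min (a / 4) ((ε / 200) ^ 2) with hδd
  have hδ0 : 0 < δ := lt_min (by linarith) (by positivity)
  have hδa : δ ≤ a / 4 := min_le_left _ _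
  have hδε : δ ≤ (ε / 200) ^ 2 := min_le_right _ _
  have hsδ : Real.sqrt δ ≤ ε / 200 := by
    apply Real.sqrt_le_iff.2
    exact ⟨by positivity, hδε⟩
  have hδ2 : 100 * δ ≤ ε := by nlinarith
  have hδ1 : δ ≤ 1 := by linarith
  have hpi := Real.pi_pos
  have hpi3 := Real.pi_gt_three
  have hpi4 := Real.pi_le_four
  obtain ⟨s, hs0, hs, hsb⟩ := HM1_s K C3 δ (16 * a / 100) hδ0 (by linarith)
  set Λ1 : ℝ := 2 * K * C3 / δ + 5 with hΛ1
  set Λ2 : ℝ := N * C4 * (4 * (4 * (16 * a)) * (8 * K * C3 / (Real.pi * δ)) + 1) with hΛ2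
  set Λ : ℝ := max Λ1 Λ2 with hΛ
  have hΛ11 : 5 ≤ Λ1 := by
    have : 0 ≤ 2 * K * C3 / δ := by positivity
    linarith
  have hΛ1' : 1 ≤ Λ := by
    have := le_max_left Λ1 Λ2
    linarith
  refine ⟨δ, Λ, δ ^ 2 / 128, hδ0, by linarith, hΛ1', by positivity, ?_⟩
  intro n A A' hLFI
  have hn0 : (0 : ℝ) ≤ n := Nat.cast_nonneg _
  obtain ⟨Ψ, Ψa, Ψn, Ψl, hSF, hΨ1, hΨn, hΨl, hΨbox, hΨsup⟩ := hBX' n A hn0
  obtain ⟨Ψ', Ψa', Ψn', Ψl', hSF', hΨ1', hΨn', hΨl', hΨbox', hΨsup'⟩ := hBX' n A' hn0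
  set v : ℝ := Real.exp (-(n : ℝ)) with hv
  have hv0 : 0 < v := Real.exp_pos _
  have hv1 : v ≤ 1 := Real.exp_le_one_iff.2 (by linarith)
  have hvn : v * Real.exp n = 1 := by
    rw [hv, ← Real.exp_add, neg_add_cancel, Real.exp_zero]
  have hE1 : 1 ≤ Real.exp (n : ℝ) := Real.one_le_exp hn0
  set T : ℝ := (n : ℝ) + s with hT
  have hT0 : 0 ≤ T := by linarith
  set B : ℝ := C3 * Real.exp n with hBd
  set L0 : ℝ := 2 * K * B / δ with hL0d
  have hB1 : 1 ≤ B := by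
    rw [hBd]
    nlinarith
  have hL01 : 1 ≤ L0 := by
    rw [hL0d, le_div_iff₀ hδ0]
    nlinarith
  have hL00 : 0 < L0 := by linarith
  set εc : ℝ := Real.pi / (4 * L0) with hεc
  have hεc0 : 0 < εc := by positivity
  have hεcL : 4 * εc * L0 = Real.pi := by
    rw [hεc]
    field_simp
  have hL0v : L0 * v = 2 * K * C3 / δ := by
    have : L0 * v = 2 * K * C3 * (v * Real.exp n) / δ := by
      rw [hL0d, hBd]
      ring
    rw [this, hvn, mul_one]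
  have hεc1 : εc ≤ 16 * a * v / 100 := by
    have h1 : 4 * εc * (L0 * v) = Real.pi * v := by
      rw [← hεcL]
      ring
    rw [hL0v] at h1
    have h2 : 8 * εc * (K * C3) = Real.pi * v * δ := by
      have h3 : 4 * εc * (2 * K * C3 / δ) * δ = 8 * εc * (K * C3) := by
        field_simp
        ring
      rw [← h3, h1]
    have h4 : 1 ≤ K * C3 := by nlinarith
    have h5 : 8 * εc ≤ Real.pi * v * δ := by
      rw [← h2]
      nlinarith
    have h6 : Real.pi * v * δ ≤ 4 * v * (a / 4) := by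
      have h7 : Real.pi * v ≤ 4 * v := mul_le_mul_of_nonneg_right hpi4 hv0.le
      exact mul_le_mul h7 hδa hδ0.le (by positivity)
    nlinarith
  have hav : 16 * a * v ≤ 1 / 50 := by nlinarith
  have hεc2 : εc ≤ 1 / 100 := by linarith
  set J1 : ℕ := ⌈1 / (4 * εc)⌉₊ with hJ1
  have hJ1a : 1 / 4 ≤ (J1 : ℝ) * εc := by
    have h1 : 1 / (4 * εc) ≤ (J1 : ℝ) := Nat.le_ceil _
    have h2 : 1 / (4 * εc) * εc = 1 / 4 := by field_simp
    calc (1 : ℝ) / 4 = 1 / (4 * εc) * εc := h2.symm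
      _ ≤ J1 * εc := mul_le_mul_of_nonneg_right h1 hεc0.le
  have hJ1b : (J1 : ℝ) * εc ≤ 1 := by
    have h1 : (J1 : ℝ) < 1 / (4 * εc) + 1 := Nat.ceil_lt_add_one (by positivity)
    have h2 : 1 / (4 * εc) * εc = 1 / 4 := by field_simp
    have h3 : (J1 : ℝ) * εc ≤ (1 / (4 * εc) + 1) * εc := mul_le_mul_of_nonneg_right h1.le hεc0.le
    have h4 : (1 / (4 * εc) + 1) * εc = 1 / 4 + εc := by
      rw [add_mul, h2, one_mul]
    linarith
  have hJ1c : J1 ≤ ⌈Λ * Real.exp n⌉₊ := by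
    apply Nat.ceil_mono
    have h1 : 1 / (4 * εc) = L0 / Real.pi := by
      rw [← hεcL]
      field_simp
    rw [h1]
    have h2 : L0 / Real.pi ≤ L0 := div_le_self hL00.le (by linarith)
    have h3 : L0 = 2 * K * C3 / δ * Real.exp n := by
      rw [hL0d, hBd]
      ring
    refine h2.trans ?_
    rw [h3]
    refine mul_le_mul_of_nonneg_right ?_ (Real.exp_pos _).le
    have := le_max_left Λ1 Λ2
    linarith
  have hjle : ∀ j : ℤ, |j| ≤ (J1 : ℤ) → |(j : ℝ) * εc| ≤ 1 := by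
    intro j hj
    rw [abs_mul, abs_of_pos hεc0]
    have h1 : |(j : ℝ)| ≤ (J1 : ℝ) := by
      have h2 : ((|j| : ℤ) : ℝ) ≤ ((J1 : ℤ) : ℝ) := by exact_mod_cast hj
      rw [Int.cast_abs] at h2
      exact_mod_cast h2
    exact (mul_le_mul_of_nonneg_right h1 hεc0.le).trans hJ1b
  have haM : ∀ s t, aM (s + t) = aM s * aM t := hGLC.2.2.2.2.2.2.2.2.2.2.1
  have hcaM : ∀ t : ℝ, Continuous fun g : SL(2, ℝ) => g * aM t := fun t => continuous_mul_const _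
  -- the sets
  set A1 : Finset SL(2, ℝ) := A'.image fun y => y * aM (-(-(n : ℝ))) with hA1
  have hcA : (A1.card : ℝ) ≤ A'.card := by exact_mod_cast Finset.card_image_le
  obtain ⟨Ap, hAp, hloc⟩ := hLC' Γ A1
  obtain ⟨-, hFWm, -, hFWi⟩ := hBWM Γ A (16 * a) v hΓ
  obtain ⟨hDm, -, hDi, -⟩ := hBWM Γ A1 (16 * a) v hΓ
  obtain ⟨hDpm, -, hDpi, -⟩ := hBWM Γ Ap (4 * (16 * a)) v hΓ
  set B1 : Set SL(2, ℝ) := FW Γ A (16 * a) v with hB1d
  set D : Set SL(2, ℝ) := BW Γ A1 (16 * a) v with hDd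
  set Dp : Set SL(2, ℝ) := BW Γ Ap (4 * (16 * a)) v with hDpd
  have hBst : BB (1 / 4) (st (-T) β) := by
    have h1 := hst (1 / 4) (-T) β hβ
    refine (hmono _ (1 / 4) _ ?_).2.2 h1
    have h2 : Real.exp (-T) ≤ 1 := Real.exp_le_one_iff.2 (by linarith)
    nlinarith
  have hLFI1 : LFI B1 (Λ * A'.card) J1 (δ ^ 2 / 128) := by
    intro g J c hJ hJj
    refine hLFI g J c hJ (fun j hj => (hJj j hj).trans ?_)
    exact_mod_cast hJ1c
  have hexpT : Real.exp (-T) / 4 ≤ 16 * a * v / 100 := by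
    have h1 : Real.exp (-T) = v * Real.exp (-s) := by
      rw [hv, ← Real.exp_add, hT]
      congr 1
      ring
    rw [h1]
    nlinarith
  obtain ⟨rO, hrO, hO⟩ := hOPB Γ F β α T εc (16 * a * v / 100) (16 * a * v) (δ ^ 2 / 128) J1 B1 D Dp hΓ hF hβ hα4 hT0 hεc0
    (by positivity) (by positivity) hJ1a (by positivity) hFWm hDpm hFWi hDpi
    (by
      intro j g k w hj hk hw1 hw2 hw3 hw4 hD
      exact hloc v (j * εc) g k w hv0 hv1 (hjle j hj) hk (hw1.trans hexpT) hw2 (hw3.trans hεc1) hw4 hD)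
    (by
      intro l g g' J c hl0 hl1 hJ
      refine hLFI1 g' J c ?_ (fun j hj => (hJ j hj).1)
      have h1 := hCT (4 * (16 * a)) v εc l Ap g J (by positivity) (by linarith) hv0 hv1 hεc0 hl0 (by linarith)
        (fun j hj => ⟨hjle j (hJ j hj).1, (hJ j hj).2⟩)
      refine h1.trans ?_
      have h2 : v / εc = 8 * K * C3 / (Real.pi * δ) := by
        rw [div_eq_div_iff hεc0.ne' (by positivity)]
        have h3 : 4 * εc * (L0 * v) = Real.pi * v := by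
          rw [← hεcL]
          ring
        rw [hL0v] at h3
        have h4 : 4 * εc * (2 * K * C3 / δ) * δ = 8 * K * C3 * εc := by
          field_simp
          ring
        have h5 : v * (Real.pi * δ) = Real.pi * v * δ := by ring
        rw [h5, ← h3, h4]
      have h6 : 4 * (4 * (16 * a)) * v / εc = 4 * (4 * (16 * a)) * (8 * K * C3 / (Real.pi * δ)) := by
        rw [mul_div_assoc, h2]
      rw [h6]
      have h7 : (Ap.card : ℝ) ≤ C4 * A'.card := hAp.trans (mul_le_mul_of_nonneg_left hcA hC4.le)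
      have h8 : 0 ≤ 4 * (4 * (16 * a)) * (8 * K * C3 / (Real.pi * δ)) + 1 := by positivity
      calc N * Ap.card * (4 * (4 * (16 * a)) * (8 * K * C3 / (Real.pi * δ)) + 1)
          ≤ N * (C4 * A'.card) * (4 * (4 * (16 * a)) * (8 * K * C3 / (Real.pi * δ)) + 1) :=
            mul_le_mul_of_nonneg_right (mul_le_mul_of_nonneg_left h7 (by linarith)) h8
        _ = Λ2 * A'.card := by
            rw [hΛ2]
            ring
        _ ≤ Λ * A'.card := mul_le_mul_of_nonneg_right (le_max_right _ _) (Nat.cast_nonneg _))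
    (δ ^ 2 / 2) (by positivity)
  obtain ⟨rN, hrN, hNM1⟩ := hNM3 Γ F α β hΓ hF hα4 hβ δ hδ0
  obtain ⟨rN', hrN', hNM2⟩ := hNM3 Γ F α (st (-T) β) hΓ hF hα4 hBst δ hδ0
  obtain ⟨rE, hrE, hE4⟩ := hEQ4 Γ F β α α T hΓ hF hβ hα hα hT0 δ hδ0
  obtain ⟨R, hR1, hRI, hRE, hRN, hRN', hR⟩ := MS1_r2 K B δ L0 rI (max rE (Real.exp (s ^ 2))) (max rN rO) rN' hδ0
  refine ⟨Ψ, Ψ', R, hSF.i0, hSF'.i0, hΨ1, hΨ1', hΨbox, hΨbox', hR1, ?_⟩
  intro r m t φ hr hφ hnφ hm0 hm1 ht1 ht2 hyp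
  have hr0 : 0 < r := by linarith
  by_cases hme : m < 4 * δ
  · linarith
  push_neg at hme
  obtain ⟨q1, q2, q3, q4⟩ := hR r hr
  have hsr : s ≤ Real.sqrt (Real.log r) := by
    apply Real.le_sqrt_of_sq_le
    rw [Real.le_log_iff_exp_le hr0]
    exact (le_max_right _ _).trans (hRE.trans hr)
  set X : ℝ := r / L0 with hX
  have hX1 : 1 ≤ X := by
    rw [hX, le_div_iff₀ hL00]
    linarith
  have hX0 : 0 < X := by linarith
  set t1 : ℝ := Real.log X with ht1d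
  have hexp : Real.exp t1 = X := Real.exp_log hX0
  have ht1' : t1 = Real.log r - Real.log L0 := Real.log_div hr0.ne' hL00.ne'
  have hlogL : 0 ≤ Real.log L0 := Real.log_nonneg hL01
  have hss0 : 0 ≤ Real.sqrt (Real.log r) := Real.sqrt_nonneg _
  have htt : t ≤ t1 := by linarith
  -- (1)
  have hinv := hI r φ (hRI.trans hr) hφ Ψ Ψa Ψn Ψl C3 B hSF (fun g => by rw [abs_of_nonneg (hΨ1 g).1]; exact (hΨ1 g).2)
    (fun g => (hΨn g).trans hC3le)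
    (fun g => (hΨl g).trans (by
      rw [hBd]
      exact mul_le_mul_of_nonneg_right hC3le (Real.exp_pos _).le))
    t t1 (hss0.trans ht1) htt
  have hexpt : Real.exp (-t) ≤ Real.exp (-Real.sqrt (Real.log r)) := Real.exp_le_exp.2 (by linarith)
  have hKlog : ∀ t2 : ℝ, t2 ≤ Real.log r → K * (t2 / r) ≤ δ / 4 := by
    intro t2 ht2
    refine le_trans ?_ q4
    exact mul_le_mul_of_nonneg_left (div_le_div_of_nonneg_right ht2 hr0.le) hK0.le
  have hC3B : C3 ≤ B := by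
    rw [hBd]
    nlinarith
  have herr : K * (C3 * Real.exp (-t) + (t1 + B * Real.exp t1) / r) * nn F φ ≤ δ := by
    rw [hnφ, mul_one, hexp]
    have h2 : K * (C3 * Real.exp (-t)) ≤ K * B * Real.exp (-Real.sqrt (Real.log r)) := by
      rw [mul_assoc]
      exact mul_le_mul_of_nonneg_left (mul_le_mul hC3B hexpt (Real.exp_pos _).le (by linarith)) hK0.le
    have h3 : K * (t1 / r) ≤ δ / 4 := hKlog t1 (by linarith)
    have h4 : K * (B * X / r) = δ / 2 := by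
      have hB0 : 0 < B := by linarith
      rw [hX, hL0d]
      field_simp
    have h5 : K * (C3 * Real.exp (-t) + (t1 + B * X) / r) = K * (C3 * Real.exp (-t)) + K * (t1 / r) + K * (B * X / r) := by
      rw [add_div]
      ring
    rw [h5, h4]
    linarith
  -- (2)
  have hinv' := hI r φ (hRI.trans hr) hφ Ψ' Ψa' Ψn' Ψl' C3 B hSF' (fun g => by rw [abs_of_nonneg (hΨ1' g).1]; exact (hΨ1' g).2)
    (fun g => (hΨn' g).trans hC3le)
    (fun g => (hΨl' g).trans (by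
      rw [hBd]
      exact mul_le_mul_of_nonneg_right hC3le (Real.exp_pos _).le))
    s t hs0 (hsr.trans ht1)
  have herr' : K * (C3 * Real.exp (-s) + (t + B * Real.exp t) / r) * nn F φ ≤ δ := by
    rw [hnφ, mul_one]
    have h3 : K * (t / r) ≤ δ / 4 := hKlog t (by linarith)
    have h4 : K * (B * Real.exp t / r) ≤ K * B * Real.exp (-Real.sqrt (Real.log r)) := by
      have h6 : Real.exp t ≤ r * Real.exp (-Real.sqrt (Real.log r)) := by
        have h7 : r * Real.exp (-Real.sqrt (Real.log r)) = Real.exp (Real.log r - Real.sqrt (Real.log r)) := by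
          rw [sub_eq_add_neg, Real.exp_add, Real.exp_log hr0]
        rw [h7]
        exact Real.exp_le_exp.2 ht2
      have h8 : B * Real.exp t / r ≤ B * Real.exp (-Real.sqrt (Real.log r)) := by
        rw [div_le_iff₀ hr0]
        have := mul_le_mul_of_nonneg_left h6 (by linarith : (0 : ℝ) ≤ B)
        linarith
      calc K * (B * Real.exp t / r) ≤ K * (B * Real.exp (-Real.sqrt (Real.log r))) := mul_le_mul_of_nonneg_left h8 hK0.le
        _ = K * B * Real.exp (-Real.sqrt (Real.log r)) := by ring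
    have h5 : K * (C3 * Real.exp (-s) + (t + B * Real.exp t) / r) = K * C3 * Real.exp (-s) + K * (t / r) + K * (B * Real.exp t / r) := by
      rw [add_div]
      ring
    rw [h5]
    linarith
  have hE4' := hE4 r φ ((le_max_left _ _).trans (hRE.trans hr)) hφ (fun g => Ψ' (g * aM s))
    (hSF'.i0.1.comp (continuous_mul_const _)).measurable
    (fun g => by rw [abs_of_nonneg (hΨ1' _).1]; exact (hΨ1' _).2)
    (fun γ g => by
      show Ψ' ((γ : SL(2, ℝ)) * g * aM s) = Ψ' (g * aM s)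
      rw [mul_assoc, hSF'.i0.2])
  have hTs : ∀ g : SL(2, ℝ), g * aM (-T) * aM s = g * aM (-(n : ℝ)) := by
    intro g
    rw [mul_assoc, ← haM]
    congr 2
    rw [hT]
    ring
  simp only [hTs] at hE4'
  rw [hnφ, mul_one] at hE4'
  have hc1 : TB (1 / 4) (pc β α) := (hCV1.2.2 (1 / 4) α β hα4.1 hβ.1).1
  have hc2 : TB (1 / 4) (pc (st (-T) β) α) := (hCV1.2.2 (1 / 4) α (st (-T) β) hα4.1 hBst.1).1
  obtain ⟨hf1, hf2⟩ := hNM1 r ((le_max_left _ _).trans (hRN.trans hr))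
  obtain ⟨hf1', -⟩ := hNM2 r (hRN'.trans hr)
  have hqq := hf2 φ hφ
  rw [hnφ, mul_one] at hqq
  have hlog : Real.log (4 * εc * r / Real.pi) = t1 := by
    rw [ht1d, hX]
    congr 1
    rw [div_eq_div_iff hpi.ne' hL00.ne', ← hεcL]
    ring
  have hQ : 64 * (δ ^ 2 / 128) + δ ^ 2 / 2 = δ ^ 2 := by ring
  have core := HM1_core hAS4 hFL0 hGFD hGBD Γ F hΓ hF (pc β α) (pc (st (-T) β) α) hc1 hc2 r δ φ hr0 hδ0 (hsδ.trans (by linarith)) hφ hnφ hf1 hf1' hqq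
    {g : SL(2, ℝ) | g * aM t1 ∈ B1} D ((hcaM t1).measurable hFWm) hDm
    (fun γ g => by
      show (γ : SL(2, ℝ)) * g * aM t1 ∈ B1 ↔ g * aM t1 ∈ B1
      rw [mul_assoc]
      exact hFWi γ (g * aM t1))
    hDi
    (by
      intro w hw1 hw2 hw3 hw4
      have h1 := hO r w ((le_max_right _ _).trans (hRN.trans hr)) hw1 hw2 hw3 hw4
      rw [hlog, hQ] at h1
      exact h1)
  have h1 := HM1_le hFL0 hGFD hGBD Γ F hΓ hF (pc β α) hc1 r φ hφ Ψ hSF.i0 hΨ1 t1 {g : SL(2, ℝ) | g * aM t1 ∈ B1}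
    ((hcaM t1).measurable hFWm) (fun g hg => hΨsup (g * aM t1) hg)
  have h2 := HM1_le hFL0 hGFD hGBD Γ F hΓ hF (pc (st (-T) β) α) hc2 r φ hφ Ψ' hSF'.i0 hΨ1' (-(n : ℝ)) D hDm
    (by
      intro g hg
      obtain ⟨y, hy, γ, hb⟩ := hΨsup' (g * aM (-(n : ℝ))) hg
      refine ⟨y * aM (-(-(n : ℝ))), Finset.mem_image_of_mem _ hy, γ, ?_⟩
      have h5 := MS1_box _ _ _ (-(n : ℝ)) y g γ hb haM
      rw [mul_div_assoc, div_self (Real.exp_pos _).ne', mul_one] at h5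
      exact h5)
  have i1 := MS2_int hFL0 hGFD hGBD Γ F hΓ hF (pc β α) hc1 r φ hφ Ψ hSF.i0 hΨ1 t
  have i2 := MS2_int hFL0 hGFD hGBD Γ F hΓ hF (pc β α) hc1 r φ hφ Ψ' hSF'.i0 hΨ1' t
  have h3 : iR F (fun g => (Ψ (g * aM t) + Ψ' (g * aM t)) * ‖pf β α r φ g‖ ^ 2) =
      iR F (fun g => Ψ (g * aM t) * ‖pf β α r φ g‖ ^ 2) + iR F (fun g => Ψ' (g * aM t) * ‖pf β α r φ g‖ ^ 2) := by
    have h4 : (fun g => (Ψ (g * aM t) + Ψ' (g * aM t)) * ‖pf β α r φ g‖ ^ 2) =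
        fun g => Ψ (g * aM t) * ‖pf β α r φ g‖ ^ 2 + Ψ' (g * aM t) * ‖pf β α r φ g‖ ^ 2 := by
      funext g
      ring
    rw [h4]
    exact integral_add i1 i2
  rw [h3] at hyp
  have g1 := mul_le_mul_of_nonneg_left h1 hr0.le
  have g2 := mul_le_mul_of_nonneg_left h2 hr0.le
  have g3 := mul_le_mul_of_nonneg_left hyp.le hr0.le
  have g4 := abs_le.1 (hinv.trans herr)
  have g5 := abs_le.1 (hinv'.trans herr')
  have g6 := abs_le.1 hE4'
  have g7 := abs_le.1 hqq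
  have g8 : (m - 4 * δ) * (1 - δ) ≤ (m - 4 * δ) * (r * qn F (pc β α) r φ) := mul_le_mul_of_nonneg_left (by linarith) (by linarith)
  have g9 : (m - 4 * δ) * δ ≤ 2 * δ := mul_le_mul_of_nonneg_right (by linarith) hδ0.le
  simp only [pf] at g3 g4 g5 g6
  rw [mul_add] at g3
  have g10 : r * ((m - 4 * δ) * qn F (pc β α) r φ) = (m - 4 * δ) * (r * qn F (pc β α) r φ) := by ring
  rw [g10] at g3
  have g11 : (m - 4 * δ) * (1 - δ) = m - 4 * δ - (m - 4 * δ) * δ := by ring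
  rw [g11] at g8
  linarith [g1, g2, g3, g4.1, g5.2, g6.1, g8, g9, core, hsδ, hδ2]

end Pool.Agent.HV
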