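import Pool.Agent.helper84.HF.SpecH

set_option autoImplicit false

open Finset

namespace Pool.Agent.HF

open Classical in
theorem SHF_bij {α β ι : Type} (X : Finset α) (e : α → β) (f : β → ι) (he : Set.InjOn e X) :
    H (X.image e) f = H X (fun x => f (e x)) := by
  unfold H
  rw [Finset.image_image]
  refine Finset.sum_congr rfl (fun i _ => ?_)
  have h1 : ((X.image e).filter (fun x => f x = i)).card = (X.filter (fun x => f (e x) = i)).card := by
    rw [Finset.filter_image, Finset.card_image_of_injOn]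
    intro x hx y hy h
    simp only [Finset.coe_filter, Set.mem_setOf_eq] at hx hy
    exact he hx.1 hy.1 h
  rw [h1, Finset.card_image_of_injOn he]

theorem SHF_sub (hHBS : HBS_stmt) (hHSM : HSM_stmt) {α ι κ : Type} (X : Finset α) (f : α → ι) (g : α → κ)
    (hX : X.Nonempty) : H X (fun x => (f x, g x)) ≤ H X f + H X g := by
  have h1 := hHSM α ι κ Unit X f g (fun _ => ()) hX
  have h2 := (hHBS α Unit Unit X (fun _ => ()) (fun _ => ()) hX).1
  have h3 : H X (fun x => (f x, g x)) ≤ H X (fun x => (f x, g x, ())) :=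
    (hHBS α _ _ X (fun x => (f x, g x, ())) (fun x => (f x, g x)) hX).2.2.2
      (by intro x _ y _ h; simpa using h)
  have h4 : H X (fun x => (f x, ())) ≤ H X f :=
    (hHBS α _ _ X f (fun x => (f x, ())) hX).2.2.2 (by intro x _ y _ h; simpa using h)
  have h5 : H X (fun x => (g x, ())) ≤ H X g :=
    (hHBS α _ _ X g (fun x => (g x, ())) hX).2.2.2 (by intro x _ y _ h; simpa using h)
  linarith

theorem SHF_one (hHBS : HBS_stmt) (hHSM : HSM_stmt) (X : Finset ℕ) (hX : X.Nonempty) (t w : ℕ) (hw : 0 < w) :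
    H X (fun u => u / w) ≤ H X (fun u => (t + u) / w) + Real.log 2 := by
  have h1 := SHF_sub hHBS hHSM X (fun u => (t + u) / w) (fun u => (t + u) / w - t / w - u / w) hX
  have h2 : H X (fun u => u / w) ≤ H X (fun u => ((t + u) / w, (t + u) / w - t / w - u / w)) := by
    refine (hHBS ℕ _ _ X (fun u => ((t + u) / w, (t + u) / w - t / w - u / w)) (fun u => u / w) hX).2.2.2 ?_
    intro x _ y _ h
    simp only [Prod.mk.injEq] at h
    obtain ⟨ha, hb⟩ := h
    rw [Nat.add_div hw, Nat.add_div hw] at ha hb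
    by_cases c1 : w ≤ t % w + x % w <;> by_cases c2 : w ≤ t % w + y % w <;> simp [c1, c2] at ha hb ⊢ <;> omega
  have h3 : H X (fun u => (t + u) / w - t / w - u / w) ≤ Real.log 2 := by
    have := (hHBS ℕ ℕ ℕ X (fun u => (t + u) / w - t / w - u / w) id hX).2.1 {0, 1} (by
      intro x _
      rw [Nat.add_div hw]
      by_cases c1 : w ≤ t % w + x % w
      · simp only [c1, if_true]
        have : t / w + x / w + 1 - t / w - x / w = 1 := by omega
        simp [this]
      · simp only [c1, if_false]
        have : t / w + x / w + 0 - t / w - x / w = 0 := by omega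
        simp)
    simpa using this
  linarith

open Classical in
theorem SHF_avg (hHBS : HBS_stmt) (hHCH : HCH_stmt) (hHSM : HSM_stmt) {α ι κ : Type} (P : Finset α)
    (V : α → ι) (g : α → κ) (hP : P.Nonempty) (a : ℝ)
    (h : ∀ v ∈ P, a ≤ H (P.filter (fun x => g x = g v)) V) : a ≤ H P V := by
  have h1 := hHCH _ _ _ P V g hP
  have h2 := SHF_sub hHBS hHSM P V g hP
  have hsum : ∑ j ∈ P.image g, (((P.filter (fun x => g x = j)).card : ℝ) / P.card) = 1 := by
    rw [← Finset.sum_div, ← Nat.cast_sum, ← Finset.card_eq_sum_card_image]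
    have : (P.card : ℝ) ≠ 0 := by
      have := Finset.card_pos.mpr hP
      positivity
    field_simp
  have h3 : a ≤
      ∑ j ∈ P.image g, (((P.filter (fun x => g x = j)).card : ℝ) / P.card) * H (P.filter (fun x => g x = j)) V := by
    calc a = ∑ j ∈ P.image g, (((P.filter (fun x => g x = j)).card : ℝ) / P.card) * a := by
          rw [← Finset.sum_mul, hsum, one_mul]
      _ ≤ _ := by
          refine Finset.sum_le_sum (fun j hj => ?_)
          refine mul_le_mul_of_nonneg_left ?_ (by positivity)
          obtain ⟨v, hv, hvj⟩ := Finset.mem_image.mp hj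
          rw [← hvj]
          exact h v hv
  linarith

theorem SHF_proof (hHBS : HBS_stmt) (hHCH : HCH_stmt) (hHSM : HSM_stmt) : SHF_stmt := by
  intro k b c X hX
  have hPn : (Fintype.piFinset X).Nonempty := Fintype.piFinset_nonempty.mpr hX
  have hw0 : 0 < 2 ^ b := by positivity
  refine SHF_avg hHBS hHCH hHSM (Fintype.piFinset X) (fun u => (c + sm u) / 2 ^ b)
    (fun (u : Fin (k + 1) → ℕ) (i : Fin k) => u i.succ) hPn _ ?_
  intro v hv
  set j : Fin k → ℕ := fun i => v i.succ with hj
  have hfib : ∀ inst : DecidablePred (fun x : Fin (k + 1) → ℕ => (fun i : Fin k => x i.succ) = j),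
      @Finset.filter _ (fun x : Fin (k + 1) → ℕ => (fun i : Fin k => x i.succ) = j) inst (Fintype.piFinset X)
        = @Finset.image _ _ (Classical.decEq _) (fun u : ℕ => (Fin.cons u j : Fin (k + 1) → ℕ)) (X 0) := by
    intro inst
    ext x
    simp only [Finset.mem_filter, Finset.mem_image, Fintype.mem_piFinset]
    constructor
    · rintro ⟨hx, hxj⟩
      refine ⟨x 0, hx 0, ?_⟩
      funext i
      refine Fin.cases ?_ (fun i => ?_) i
      · simp
      · simp only [Fin.cons_succ]
        rw [← hxj]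
    · rintro ⟨u, hu, rfl⟩
      refine ⟨?_, ?_⟩
      · intro i
        refine Fin.cases ?_ (fun i => ?_) i
        · simpa using hu
        · simp only [Fin.cons_succ, hj]
          exact (Fintype.mem_piFinset.mp hv) i.succ
      · funext i
        simp
  rw [hfib _]
  have hb := SHF_bij (X 0) (fun u : ℕ => (Fin.cons u j : Fin (k + 1) → ℕ)) (fun u => (c + sm u) / 2 ^ b) (by
    intro x _ y _ h
    have := congrFun h 0
    simpa using this)
  have hb' : H (@Finset.image _ _ (Classical.decEq _) (fun u : ℕ => (Fin.cons u j : Fin (k + 1) → ℕ)) (X 0))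
      (fun u => (c + sm u) / 2 ^ b) = H (X 0) (fun u : ℕ => (c + sm (Fin.cons u j : Fin (k + 1) → ℕ)) / 2 ^ b) := hb
  rw [hb']
  have h4 := SHF_one hHBS hHSM (X 0) (hX 0) (c + ∑ i, j i) (2 ^ b) hw0
  have h5 : (fun u : ℕ => (c + sm (Fin.cons u j : Fin (k + 1) → ℕ)) / 2 ^ b) = (fun u : ℕ => (c + ∑ i, j i + u) / 2 ^ b) := by
    funext u
    simp only [sm, Fin.sum_univ_succ, Fin.cons_zero, Fin.cons_succ]
    congr 1
    ring
  rw [h5]
  linarith

end Pool.Agent.HF
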